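import Pool.Agent.BHM85.Full

/-!
# The maximum of a random step map is below the maximum of the walk in the increasing convex order
-/

set_option autoImplicit false

namespace Pool.Agent.BHM85

open Finset Pool.Agent.BHM

variable {V : Type} [Fintype V] [DecidableEq V]

/-- The sum of `max (max f) z` over the step maps. -/
theorem sum_max_le {G : SimpleGraph V} (hG : G.Connected) (hb : G.Colorable 2) (v₀ : V) {n : ℕ}
    (hn : Fintype.card V = n + 1) (z : ℕ) :
    ∑ f ∈ homs G hG v₀, (mx univ (Function.update (fun _ => 0) v₀ z) f : ℝ) ≤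
      ((homs G hG v₀).card : ℝ) * K^[n] (fun y => (y : ℝ)) z := by
  have h := diamond hG hb v₀ v₀ (Finset.univ.erase v₀) (Att.univ hG v₀) {v₀}
    (Function.update (fun _ => 0) v₀ z)
    (Finset.mem_singleton_self _)
    (by
      rw [Finset.disjoint_singleton_right]
      exact Finset.notMem_erase _ _)
    (fun a ha => Function.update_of_ne (Finset.ne_of_mem_erase ha) _ _)
  have h1 : Finset.univ.erase v₀ ∪ {v₀} = Finset.univ := by
    rw [Finset.union_comm, ← Finset.insert_eq, Finset.insert_erase (Finset.mem_univ _)]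
  rw [h1, Finset.card_erase_of_mem (Finset.mem_univ _), Finset.card_univ, hn,
    Nat.add_sub_cancel] at h
  unfold Lam at h
  refine h.trans (le_of_eq ?_)
  rw [← Kit_mul, Function.update_self]
  have e : (fun y => ∑ f ∈ homs G hG v₀, (mx {v₀} (Function.update
      (Function.update (fun _ => 0) v₀ z) v₀ y) f : ℝ)) =
      fun y : ℕ => ((homs G hG v₀).card : ℝ) * (y : ℝ) := by
    funext y
    rw [Finset.sum_congr rfl (g := fun _ => (y : ℝ)), Finset.sum_const, nsmul_eq_mul]
    intro f hf
    rw [mem_homs] at hf
    rw [mx, dif_pos (Finset.singleton_nonempty _), Finset.sup'_singleton, Function.update_self,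
      hf.1]
    simp
  exact congrArg (fun g => K^[n] g z) e

/-- The iterated operator at `z` is the walk average of `max z M`. -/
theorem Kit_eq_walks (n z : ℕ) :
    (2 : ℝ) ^ n * K^[n] (fun y => (y : ℝ)) z = ∑ f ∈ walks n, ((max z (M f) : ℕ) : ℝ) := by
  have h1 : (fun y : ℕ => (y : ℝ)) = ph 0 := by
    funext y
    simp [ph]
  rw [h1, Kit_ph_symm, ← sum_walks_K]
  rfl

/-- A function on `{0, ..., N + 1}` in terms of the functions `max z`. -/
theorem expand (φ : ℕ → ℝ) (N m : ℕ) (hm : m ≤ N + 1) :
    φ m = (φ 1 - φ 0) * (m : ℝ) + φ 0 +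
      ∑ z ∈ range N, (φ (z + 2) - 2 * φ (z + 1) + φ z) * (((max (z + 1) m : ℕ) : ℝ) - (z + 1)) := by
  induction m with
  | zero =>
    have : ∀ z ∈ range N, (φ (z + 2) - 2 * φ (z + 1) + φ z) *
        (((max (z + 1) 0 : ℕ) : ℝ) - (z + 1)) = 0 := by
      intro z _
      rw [Nat.max_zero]
      push_cast
      ring
    rw [Finset.sum_congr rfl this]
    simp
  | succ m ih =>
    have ih := ih (by omega)
    have hkey : ∑ z ∈ range N, (φ (z + 2) - 2 * φ (z + 1) + φ z) *
          (((max (z + 1) (m + 1) : ℕ) : ℝ) - (z + 1)) -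
        ∑ z ∈ range N, (φ (z + 2) - 2 * φ (z + 1) + φ z) *
          (((max (z + 1) m : ℕ) : ℝ) - (z + 1)) =
        ∑ z ∈ range m, (φ (z + 2) - 2 * φ (z + 1) + φ z) := by
      rw [← Finset.sum_sub_distrib]
      have h2 : range m = (range N).filter (fun z => z < m) := by
        ext z
        simp only [Finset.mem_range, Finset.mem_filter]
        omega
      rw [h2, Finset.sum_filter]
      apply Finset.sum_congr rfl
      intro z _
      by_cases hz : z < m
      · rw [if_pos hz, max_eq_right (by omega), max_eq_right (by omega)]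
        push_cast
        ring
      · rw [if_neg hz]
        have : max (z + 1) (m + 1) = z + 1 := max_eq_left (by omega)
        have h3 : max (z + 1) m = z + 1 := max_eq_left (by omega)
        rw [this, h3]
        ring
    have htel : ∀ k : ℕ, ∑ z ∈ range k, (φ (z + 2) - 2 * φ (z + 1) + φ z) =
        φ (k + 1) - φ k - (φ 1 - φ 0) := by
      intro k
      induction k with
      | zero => simp
      | succ k ihk =>
        rw [Finset.sum_range_succ, ihk]
        ring
    rw [htel] at hkey
    have e : ((m + 1 : ℕ) : ℝ) = (m : ℝ) + 1 := by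
      push_cast
      ring
    rw [e]
    linarith

end Pool.Agent.BHM85
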