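import Pool.Agent.BHM85.Star
import Pool.Agent.BHM.Path
import Pool.Agent.BHM.Chain

/-!
The main bound: the decorated maximum is at most that of the path.
-/

set_option autoImplicit false

namespace Pool.Agent.BHM85

open Finset Pool.Agent.BHM

variable {V : Type} [Fintype V] [DecidableEq V]

/-- `C` is attached to `r` in a tree-like manner. -/
inductive Att (G : SimpleGraph V) : V → Finset V → Prop
  | nil (r : V) : Att G r ∅
  | graft (r c : V) (D C : Finset V) (hadj : G.Adj c r) (hD : Att G c D) (hC : Att G r C)
      (hcD : c ∉ D) (hrD : r ∉ D) (hdisj : Disjoint (insert c D) C) (hrC : r ∉ C) :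
      Att G r (insert c D ∪ C)

omit [Fintype V] in
theorem Att.grow {G : SimpleGraph V} {r : V} {C : Finset V} (h : Att G r C) (hr : r ∉ C)
    (x y : V) (hx : x ∉ C) (hxr : x ≠ r) (hy : y = r ∨ y ∈ C) (hadj : G.Adj x y) :
    Att G r (insert x C) := by
  induction h with
  | nil r =>
    rcases hy with rfl | hy
    · have := Att.graft y x ∅ ∅ hadj (Att.nil x) (Att.nil y) (Finset.notMem_empty _)
        (Finset.notMem_empty _) (Finset.disjoint_empty_right _) (Finset.notMem_empty _)
      simpa using this
    · exact absurd hy (Finset.notMem_empty _)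
  | graft r c D C hadj' hD hC hcD hrD hdisj hrC ihD ihC =>
    have hxc : x ≠ c := by
      rintro rfl
      exact hx (Finset.mem_union_left _ (Finset.mem_insert_self _ _))
    have hxD : x ∉ D := fun h =>
      hx (Finset.mem_union_left _ (Finset.mem_insert_of_mem h))
    have hxC : x ∉ C := fun h => hx (Finset.mem_union_right _ h)
    have hrc : r ≠ c := by
      rintro rfl
      exact hr (Finset.mem_union_left _ (Finset.mem_insert_self _ _))
    by_cases hyD : y = c ∨ y ∈ D
    · have h1 := ihD hcD hxD hxc hyD
      have h2 : insert x (insert c D ∪ C) = insert c (insert x D) ∪ C := by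
        rw [Finset.insert_comm c x D, Finset.insert_union x]
      rw [h2]
      refine Att.graft r c (insert x D) C hadj' h1 hC ?_ ?_ ?_ hrC
      · rw [Finset.mem_insert, not_or]
        exact ⟨fun h => hxc h.symm, hcD⟩
      · rw [Finset.mem_insert, not_or]
        exact ⟨fun h => hxr h.symm, hrD⟩
      · rw [Finset.insert_comm, Finset.disjoint_insert_left]
        exact ⟨hxC, hdisj⟩
    · have hy' : y = r ∨ y ∈ C := by
        rcases hy with h | h
        · exact Or.inl h
        · rw [Finset.mem_union, Finset.mem_insert] at h
          rcases h with h | h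
          · exact absurd h hyD
          · exact Or.inr h
      have h1 := ihC hrC hxC hxr hy'
      have h2 : insert x (insert c D ∪ C) = insert c D ∪ insert x C := by
        rw [Finset.union_insert]
      rw [h2]
      refine Att.graft r c D (insert x C) hadj' hD h1 hcD hrD ?_ ?_
      · rw [Finset.disjoint_insert_right]
        refine ⟨?_, hdisj⟩
        rw [Finset.mem_insert, not_or]
        exact ⟨hxc, hxD⟩
      · rw [Finset.mem_insert, not_or]
        exact ⟨fun h => hxr h.symm, hrC⟩

/-- In a connected graph everything is attached to the root. -/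
theorem Att.univ {G : SimpleGraph V} (hG : G.Connected) (r : V) :
    Att G r (Finset.univ.erase r) := by
  have key : ∀ k : ℕ, k + 1 ≤ Fintype.card V → ∃ C : Finset V, C.card = k ∧ r ∉ C ∧ Att G r C := by
    intro k
    induction k with
    | zero => intro _; exact ⟨∅, rfl, Finset.notMem_empty _, Att.nil r⟩
    | succ k ih =>
      intro hk
      obtain ⟨C, hC1, hC2, hC3⟩ := ih (by omega)
      -- find a vertex outside adjacent to insert r C
      have hne : ∃ x, x ∉ insert r C := by
        by_contra hcon
        push Not at hcon
        have h1 : (Finset.univ : Finset V) ⊆ insert r C := fun x _ => hcon x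
        have h2 := Finset.card_le_card h1
        rw [Finset.card_insert_of_notMem hC2, Finset.card_univ] at h2
        omega
      obtain ⟨x0, hx0⟩ := hne
      obtain ⟨p⟩ := hG x0 r
      have hwalk : ∀ (a b : V) (p : G.Walk a b), a ∉ insert r C → b ∈ insert r C →
          ∃ x y, x ∉ insert r C ∧ y ∈ insert r C ∧ G.Adj x y := by
        intro a b p
        induction p with
        | nil => intro h1 h2; exact absurd h2 h1
        | cons h p ih =>
          rename_i a b c
          intro h1 h2
          by_cases h3 : b ∈ insert r C
          · exact ⟨a, b, h1, h3, h⟩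
          · exact ih h3 h2
      obtain ⟨x, y, hx, hy, hxy⟩ := hwalk x0 r p hx0 (Finset.mem_insert_self _ _)
      rw [Finset.mem_insert, not_or] at hx
      rw [Finset.mem_insert] at hy
      refine ⟨insert x C, ?_, ?_, hC3.grow hC2 x y hx.2 hx.1 hy hxy⟩
      · rw [Finset.card_insert_of_notMem hx.2, hC1]
      · rw [Finset.mem_insert, not_or]
        exact ⟨fun h => hx.1 h.symm, hC2⟩
  have hpos : 0 < Fintype.card V := Fintype.card_pos_iff.mpr ⟨r⟩
  obtain ⟨C, hC1, hC2, hC3⟩ := key (Fintype.card V - 1) (by omega)
  have h1 : C = Finset.univ.erase r := by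
    apply Finset.eq_of_subset_of_card_le
    · intro x hx
      rw [Finset.mem_erase]
      exact ⟨fun h => hC2 (h ▸ hx), Finset.mem_univ _⟩
    · rw [Finset.card_erase_of_mem (Finset.mem_univ _), Finset.card_univ, hC1]
  rw [← h1]
  exact hC3

/-- As a function of one decoration, `Lam` is a sum of shifted functions `ph x`. -/
theorem Lam_form {G : SimpleGraph V} (hG : G.Connected) (v₀ : V) (W : Finset V) (u : V → ℕ)
    (r : V) (hr : r ∈ W) (z : ℕ) :
    Lam G hG v₀ W (Function.update u r z) = ∑ f ∈ homs G hG v₀,
      ((f r : ℝ) + ph (mx W (Function.update u r 0) f - f r).toNat z) := by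
  unfold Lam
  apply Finset.sum_congr rfl
  intro f _
  have h1 := mx_update (Function.update u r 0) f hr z (by rw [Function.update_self]; exact Nat.zero_le _)
  rw [Function.update_idem] at h1
  rw [h1]
  have h2 := le_mx (Function.update u r 0) f hr
  rw [Function.update_self] at h2
  unfold ph
  have h3 : max (mx W (Function.update u r 0) f) (f r + z) =
      f r + ((max (mx W (Function.update u r 0) f - f r).toNat z : ℕ) : ℤ) := by
    omega
  rw [h3]
  push_cast
  ring

/-- THE MAIN REDUCTION. -/
theorem diamond {G : SimpleGraph V} (hG : G.Connected) (hb : G.Colorable 2) (v₀ : V)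
    (r : V) (C : Finset V) (hC : Att G r C) :
    ∀ (W : Finset V) (u : V → ℕ), r ∈ W → Disjoint C W → (∀ a ∈ C, u a = 0) →
      Lam G hG v₀ (C ∪ W) u ≤
        K^[C.card] (fun z => Lam G hG v₀ W (Function.update u r z)) (u r) := by
  induction hC with
  | nil r =>
    intro W u hr _ _
    rw [Finset.empty_union, Finset.card_empty]
    show _ ≤ Lam G hG v₀ W (Function.update u r (u r))
    rw [Function.update_eq_self]
  | graft r c D C hadj hD hC hcD hrD hdisj hrC ihD ihC =>
    intro W u hr hdW hu
    have hrc : r ≠ c := fun h => hadj.ne h.symm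
    have hcC : c ∉ C := fun h =>
      (Finset.disjoint_left.mp hdisj) (Finset.mem_insert_self _ _) h
    have hcW : c ∉ W := fun h =>
      (Finset.disjoint_left.mp hdW) (Finset.mem_union_left _ (Finset.mem_insert_self _ _)) h
    have hDC : Disjoint D C := by
      rw [Finset.disjoint_insert_left] at hdisj
      exact hdisj.2
    have hDW : Disjoint D W := by
      rw [Finset.disjoint_left] at hdW ⊢
      intro a ha
      exact hdW (Finset.mem_union_left _ (Finset.mem_insert_of_mem ha))
    have hCW : Disjoint C W := by
      rw [Finset.disjoint_left] at hdW ⊢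
      intro a ha
      exact hdW (Finset.mem_union_right _ ha)
    have hset : insert c D ∪ C ∪ W = D ∪ insert c (C ∪ W) := by
      ext a
      simp only [Finset.mem_union, Finset.mem_insert]
      tauto
    have hcCW : c ∉ C ∪ W := by
      rw [Finset.mem_union, not_or]
      exact ⟨hcC, hcW⟩
    have huc : u c = 0 := hu c (Finset.mem_union_left _ (Finset.mem_insert_self _ _))
    have h1 := ihD (insert c (C ∪ W)) u (Finset.mem_insert_self _ _)
      (by
        rw [Finset.disjoint_insert_right, Finset.disjoint_union_right]
        exact ⟨hcD, hDC, hDW⟩)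
      (fun a ha => hu a (Finset.mem_union_left _ (Finset.mem_insert_of_mem ha)))
    rw [huc] at h1
    rw [hset]
    refine h1.trans ?_
    -- the absorption step for each z
    set θ : ℕ → ℝ := fun z => Lam G hG v₀ (C ∪ W) (Function.update u r z) with hθ
    have h2 : ∀ z, Lam G hG v₀ (insert c (C ∪ W)) (Function.update u c z) ≤
        K (fun y => θ (max (u r) y)) z := by
      intro z
      have hs := star hG hb v₀ (C ∪ W) (Function.update u c z) c r
        (Finset.mem_union_right _ hr) hadj
      refine hs.trans (le_of_eq ?_)
      rw [Function.update_self, Function.update_of_ne hrc]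
      have hcong : ∀ m, Lam G hG v₀ (C ∪ W) (Function.update (Function.update u c z) r m) =
          θ m := by
        intro m
        simp only [hθ]
        unfold Lam
        apply Finset.sum_congr rfl
        intro f _
        rw [mx_congr (Function.update (Function.update u c z) r m) (Function.update u r m)]
        intro a ha
        by_cases har : a = r
        · subst har; rw [Function.update_self, Function.update_self]
        · rw [Function.update_of_ne har, Function.update_of_ne har, Function.update_of_ne]
          rintro rfl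
          exact hcCW ha
      rw [hcong, hcong]
      rfl
    refine (Kit_mono D.card h2 0).trans ?_
    rw [← Function.iterate_succ_apply]
    -- the L step
    have h3 : K^[D.card + 1] (fun y => θ (max (u r) y)) 0 ≤ K^[D.card + 1] θ (u r) := by
      have hform : θ = fun z => ∑ f ∈ homs G hG v₀, ((f r : ℝ) +
          ph (mx (C ∪ W) (Function.update u r 0) f - f r).toNat z) := by
        funext z
        exact Lam_form hG v₀ (C ∪ W) u r (Finset.mem_union_right _ hr) z
      rw [hform]
      exact L_sum (homs G hG v₀) (fun f => (f r : ℝ))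
        (fun f => (mx (C ∪ W) (Function.update u r 0) f - f r).toNat) (D.card + 1) (u r)
    refine h3.trans ?_
    -- second induction hypothesis
    have h4 : ∀ z, θ z ≤ K^[C.card] (fun y => Lam G hG v₀ W (Function.update u r y)) z := by
      intro z
      have := ihC W (Function.update u r z) hr hCW (by
        intro a ha
        rw [Function.update_of_ne]
        · exact hu a (Finset.mem_union_right _ ha)
        · rintro rfl
          exact hrC ha)
      rw [Function.update_self] at this
      have e : (fun y => Lam G hG v₀ W (Function.update (Function.update u r z) r y)) =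
          fun y => Lam G hG v₀ W (Function.update u r y) := by
        funext y
        rw [Function.update_idem]
      rw [e] at this
      exact this
    refine (Kit_mono (D.card + 1) h4 (u r)).trans (le_of_eq ?_)
    rw [← Function.iterate_add_apply, Finset.card_union_of_disjoint hdisj,
      Finset.card_insert_of_notMem hcD]

/-- bound for the sum of the maxima. -/
theorem Lam_univ_le {n : ℕ} {G : SimpleGraph (Fin (n + 1))} (hG : G.Connected)
    (hb : G.Colorable 2) :
    Lam G hG 0 Finset.univ (fun _ => 0) ≤
      ((homs G hG 0).card : ℝ) * K^[n] (fun z => (z : ℝ)) 0 := by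
  have h := diamond hG hb 0 0 (Finset.univ.erase 0) (Att.univ hG 0) {0} (fun _ => 0)
    (Finset.mem_singleton_self _)
    (by
      rw [Finset.disjoint_singleton_right]
      exact Finset.notMem_erase _ _)
    (fun _ _ => rfl)
  have h1 : Finset.univ.erase (0 : Fin (n + 1)) ∪ {0} = Finset.univ := by
    rw [Finset.union_comm, ← Finset.insert_eq, Finset.insert_erase (Finset.mem_univ _)]
  rw [h1, Finset.card_erase_of_mem (Finset.mem_univ _), Finset.card_univ, Fintype.card_fin,
    Nat.add_sub_cancel] at h
  refine h.trans (le_of_eq ?_)
  rw [← Kit_mul]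
  have e : (fun z => Lam G hG 0 {0} (Function.update (fun _ => 0) 0 z)) =
      fun z : ℕ => ((homs G hG 0).card : ℝ) * (z : ℝ) := by
    funext z
    unfold Lam
    rw [Finset.sum_congr rfl (g := fun _ => (z : ℝ)), Finset.sum_const, nsmul_eq_mul]
    intro f hf
    rw [mem_homs] at hf
    rw [mx, dif_pos (Finset.singleton_nonempty _), Finset.sup'_singleton, Function.update_self,
      hf.1]
    simp
  rw [e]

/-- the walk side -/
theorem sum_walks_K (m : ℕ) : ∀ φ : ℕ → ℝ,
    ∑ f ∈ walks m, φ (M f) = 2 ^ m * K^[m] φ 0 := by
  induction m with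
  | zero =>
    intro φ
    rw [walks_zero, Finset.sum_singleton]
    simp [M]
  | succ m ih =>
    intro φ
    rw [sum_M_pow, Function.iterate_succ_apply]
    have h1 : ∑ g ∈ walks m, (φ (M g + 1) + φ (M g - 1)) = 2 * ∑ g ∈ walks m, K φ (M g) := by
      rw [Finset.mul_sum]
      apply Finset.sum_congr rfl
      intro g _
      unfold K
      ring
    rw [h1, ih (K φ), pow_succ]
    ring

theorem sum_card_homs_le {n : ℕ} {G : SimpleGraph (Fin (n + 1))} (hG : G.Connected)
    (hb : G.Colorable 2) :
    ∑ f ∈ homs G hG 0, ((univ.image f).card : ℝ) ≤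
      ((homs G hG 0).card : ℝ) * (2 * K^[n] (fun z => (z : ℝ)) 0 + 1) := by
  have h1 : ∀ f ∈ homs G hG 0, ((univ.image f).card : ℝ) ≤
      (mx univ (fun _ => 0) f : ℝ) + (mx univ (fun _ => 0) (fun v => - f v) : ℝ) + 1 := by
    intro f _
    obtain ⟨x₁, x₂, h⟩ := card_image_le_range f
    have h2 := le_mx (fun _ => 0) f (Finset.mem_univ x₁)
    have h3 := le_mx (fun _ => 0) (fun v => - f v) (Finset.mem_univ x₂)
    have h4 : ((univ.image f).card : ℤ) ≤
        mx univ (fun _ => 0) f + mx univ (fun _ => 0) (fun v => - f v) + 1 := by
      push_cast at h2 h3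
      omega
    exact_mod_cast h4
  refine (Finset.sum_le_sum h1).trans ?_
  rw [Finset.sum_add_distrib, Finset.sum_add_distrib,
    sum_neg hG 0 (fun f => (mx univ (fun _ => 0) f : ℝ)), Finset.sum_const, nsmul_eq_mul, mul_one]
  have h2 := Lam_univ_le hG hb
  unfold Lam at h2
  linarith

theorem sum_card_walks_lower (n : ℕ) :
    (2 : ℝ) ^ n * (2 * K^[n] (fun z => (z : ℝ)) 0 + 1) ≤
      ∑ f ∈ walks n, ((univ.image f).card : ℝ) := by
  have h1 : ∑ f ∈ walks n, ((M f : ℝ) + (M (fun i => - f i) : ℝ) + 1) ≤
      ∑ f ∈ walks n, ((univ.image f).card : ℝ) := by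
    apply Finset.sum_le_sum
    intro f hf
    exact_mod_cast card_image_ge f hf
  refine le_trans (le_of_eq ?_) h1
  rw [Finset.sum_add_distrib, Finset.sum_add_distrib, Finset.sum_const, nsmul_eq_mul, mul_one,
    card_walks]
  have h2 : ∑ f ∈ walks n, (M (fun i => - f i) : ℝ) = ∑ f ∈ walks n, (M f : ℝ) :=
    sum_neg (SimpleGraph.pathGraph_connected n) 0 (fun f => (M f : ℝ))
  rw [h2, sum_walks_K n (fun z => (z : ℝ))]
  ring

end Pool.Agent.BHM85
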