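import Mathlib

/-!
The reflected random walk operator `K φ m = (φ (m + 1) + φ (m - 1)) / 2` on functions on `ℕ`
(truncated subtraction) and its symmetry on the functions `m ↦ max p m`.
-/

set_option autoImplicit false

namespace Pool.Agent.BHM85

/-- reflected walk operator -/
noncomputable def K (φ : ℕ → ℝ) (m : ℕ) : ℝ := (φ (m + 1) + φ (m - 1)) / 2

/-- the functions `m ↦ max p m` -/
def ph (p m : ℕ) : ℝ := ((max p m : ℕ) : ℝ)

theorem K_mono {φ ψ : ℕ → ℝ} (h : ∀ m, φ m ≤ ψ m) (m : ℕ) : K φ m ≤ K ψ m := by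
  unfold K
  have h1 := h (m + 1)
  have h2 := h (m - 1)
  linarith

theorem Kit_mono (k : ℕ) {φ ψ : ℕ → ℝ} (h : ∀ m, φ m ≤ ψ m) (m : ℕ) :
    K^[k] φ m ≤ K^[k] ψ m := by
  induction k generalizing φ ψ with
  | zero => exact h m
  | succ k ih =>
    rw [Function.iterate_succ_apply, Function.iterate_succ_apply]
    exact ih (fun m => K_mono h m)

theorem K_monotone {φ : ℕ → ℝ} (h : Monotone φ) : Monotone (K φ) := by
  intro a b hab
  unfold K
  have h1 := h (show a + 1 ≤ b + 1 by omega)
  have h2 := h (show a - 1 ≤ b - 1 by omega)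
  linarith

theorem Kit_monotone (k : ℕ) {φ : ℕ → ℝ} (h : Monotone φ) : Monotone (K^[k] φ) := by
  induction k generalizing φ with
  | zero => exact h
  | succ k ih =>
    rw [Function.iterate_succ_apply]
    exact ih (K_monotone h)

theorem Kit_add (k : ℕ) (φ ψ : ℕ → ℝ) (m : ℕ) :
    K^[k] (fun y => φ y + ψ y) m = K^[k] φ m + K^[k] ψ m := by
  induction k generalizing φ ψ with
  | zero => rfl
  | succ k ih =>
    have e : K (fun y => φ y + ψ y) = fun y => K φ y + K ψ y := by
      funext y
      simp only [K]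
      ring
    rw [Function.iterate_succ_apply, Function.iterate_succ_apply, Function.iterate_succ_apply,
      ← ih, e]

theorem Kit_const (k : ℕ) (c : ℝ) (m : ℕ) : K^[k] (fun _ => c) m = c := by
  induction k with
  | zero => rfl
  | succ k ih =>
    rw [Function.iterate_succ_apply]
    have : K (fun _ => c) = fun _ => c := by
      funext y; simp only [K]; ring
    rw [this, ih]

theorem Kit_mul (k : ℕ) (c : ℝ) (φ : ℕ → ℝ) (m : ℕ) :
    K^[k] (fun y => c * φ y) m = c * K^[k] φ m := by
  induction k generalizing φ with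
  | zero => rfl
  | succ k ih =>
    have e : K (fun y => c * φ y) = fun y => c * K φ y := by
      funext y
      simp only [K]
      ring
    rw [Function.iterate_succ_apply, Function.iterate_succ_apply, ← ih, e]

theorem Kit_sum {ι : Type*} (s : Finset ι) (k : ℕ) (φ : ι → ℕ → ℝ) (m : ℕ) :
    K^[k] (fun y => ∑ i ∈ s, φ i y) m = ∑ i ∈ s, K^[k] (φ i) m := by
  classical
  induction s using Finset.induction_on with
  | empty => simpa using Kit_const k 0 m
  | insert a s ha ih =>
    have e : (fun y => ∑ i ∈ insert a s, φ i y) = fun y => φ a y + ∑ i ∈ s, φ i y := by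
      funext y
      rw [Finset.sum_insert ha]
    rw [Finset.sum_insert ha, ← ih, ← Kit_add, e]

theorem K_ph (p m : ℕ) : K (ph p) m = (ph (p + 1) m + ph (p - 1) m) / 2 := by
  unfold K ph
  have : (((max p (m + 1) : ℕ) : ℝ) + ((max p (m - 1) : ℕ) : ℝ)) =
      ((max (p + 1) m : ℕ) : ℝ) + ((max (p - 1) m : ℕ) : ℝ) := by
    have h : max p (m + 1) + max p (m - 1) = max (p + 1) m + max (p - 1) m := by omega
    exact_mod_cast h
  rw [this]

theorem Kit_ph_succ (k p m : ℕ) :
    K^[k + 1] (ph p) m = (K^[k] (ph (p + 1)) m + K^[k] (ph (p - 1)) m) / 2 := by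
  rw [Function.iterate_succ_apply]
  have h1 : K (ph p) = fun y => (1 / 2 : ℝ) * (ph (p + 1) y + ph (p - 1) y) := by
    funext y
    rw [K_ph]
    ring
  rw [h1, Kit_mul, Kit_add]
  ring

theorem Kit_ph_symm (k p m : ℕ) : K^[k] (ph p) m = K^[k] (ph m) p := by
  induction k generalizing p m with
  | zero =>
    show ph p m = ph m p
    unfold ph
    rw [max_comm]
  | succ k ih =>
    rw [Kit_ph_succ, Function.iterate_succ_apply', ih (p + 1) m, ih (p - 1) m, K]

theorem ph_monotone (p : ℕ) : Monotone (ph p) := by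
  intro a b hab
  unfold ph
  exact_mod_cast max_le_max (le_refl p) hab

/-- moving a decoration to the far end of a pendant path -/
theorem L_ph (k x z : ℕ) : K^[k] (fun y => ph x (max z y)) 0 ≤ K^[k] (ph x) z := by
  have h1 : (fun y => ph x (max z y)) = ph (max x z) := by
    funext y
    unfold ph
    rw [max_assoc]
  rw [h1]
  rcases le_total z x with h | h
  · rw [max_eq_left h]
    exact Kit_monotone k (ph_monotone x) (Nat.zero_le _)
  · rw [max_eq_right h, Kit_ph_symm k x z]
    exact Kit_monotone k (ph_monotone z) (Nat.zero_le _)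

/-- the same for sums of shifted functions `ph x`. -/
theorem L_sum {ι : Type*} (s : Finset ι) (c : ι → ℝ) (x : ι → ℕ) (k z : ℕ) :
    K^[k] (fun y => ∑ i ∈ s, (c i + ph (x i) (max z y))) 0 ≤
      K^[k] (fun y => ∑ i ∈ s, (c i + ph (x i) y)) z := by
  rw [Kit_sum s k (fun i y => c i + ph (x i) (max z y)), Kit_sum s k (fun i y => c i + ph (x i) y)]
  apply Finset.sum_le_sum
  intro i _
  rw [Kit_add k (fun _ => c i), Kit_add k (fun _ => c i), Kit_const, Kit_const]
  have := L_ph k (x i) z
  linarith

end Pool.Agent.BHM85
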