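import Pool.Agent.BHM85.Op
import Pool.Agent.BHM.Hom

/-!
The FKG step: absorbing a vertex into a neighbour.
-/

set_option autoImplicit false

namespace Pool.Agent.BHM85

open Finset Pool.Agent.BHM
open scoped FinsetFamily

/-- FKG inequality for the uniform distribution on a finite sublattice. -/
theorem fkg_finset {α : Type*} [DistribLattice α] [DecidableEq α] (s : Finset α)
    (hsup : ∀ a ∈ s, ∀ b ∈ s, a ⊔ b ∈ s) (hinf : ∀ a ∈ s, ∀ b ∈ s, a ⊓ b ∈ s)
    (F g : α → ℝ) (hF0 : ∀ a, 0 ≤ F a) (hg0 : ∀ a, 0 ≤ g a) (hF : Monotone F) (hg : Monotone g) :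
    (∑ a ∈ s, F a) * (∑ a ∈ s, g a) ≤ (s.card : ℝ) * ∑ a ∈ s, F a * g a := by
  have h := four_functions_theorem F g (fun _ => 1) (fun a => F a * g a) hF0 hg0
    (fun _ => zero_le_one) (fun a => mul_nonneg (hF0 a) (hg0 a))
    (fun a b => by
      rw [one_mul]
      exact mul_le_mul (hF le_sup_left) (hg le_sup_right) (hg0 b) (hF0 _)) s s
  refine h.trans ?_
  have hsub1 : s ⊼ s ⊆ s := by
    intro x hx
    rw [Finset.mem_infs] at hx
    obtain ⟨a, ha, b, hb, rfl⟩ := hx
    exact hinf a ha b hb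
  have hsub2 : s ⊻ s ⊆ s := by
    intro x hx
    rw [Finset.mem_sups] at hx
    obtain ⟨a, ha, b, hb, rfl⟩ := hx
    exact hsup a ha b hb
  have h1 : ∑ _a ∈ s ⊼ s, (1 : ℝ) ≤ (s.card : ℝ) := by
    rw [Finset.sum_const, nsmul_eq_mul, mul_one]
    exact_mod_cast Finset.card_le_card hsub1
  have h2 : ∑ a ∈ s ⊻ s, F a * g a ≤ ∑ a ∈ s, F a * g a :=
    Finset.sum_le_sum_of_subset_of_nonneg hsub2 (fun a _ _ => mul_nonneg (hF0 a) (hg0 a))
  exact mul_le_mul h1 h2 (Finset.sum_nonneg (fun a _ => mul_nonneg (hF0 a) (hg0 a)))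
    (Nat.cast_nonneg _)

variable {V : Type} [Fintype V] [DecidableEq V]

omit [Fintype V] [DecidableEq V] in
/-- parity is determined by the graph -/
theorem parity {G : SimpleGraph V} {f g : V → ℤ} (hf : IsStep G f) (hg : IsStep G g)
    {u v : V} (p : G.Walk u v) (h : (f u - g u) % 2 = 0) : (f v - g v) % 2 = 0 := by
  induction p with
  | nil => exact h
  | cons hadj p ih =>
    apply ih
    have h1 := hf _ _ hadj
    have h2 := hg _ _ hadj
    rcases abs_eq (by norm_num : (0 : ℤ) ≤ 1) |>.mp h1 with h3 | h3 <;>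
    rcases abs_eq (by norm_num : (0 : ℤ) ≤ 1) |>.mp h2 with h4 | h4 <;> omega

theorem homs_sup {G : SimpleGraph V} (hG : G.Connected) (w : V) (f : V → ℤ)
    (hf : f ∈ homs G hG w) (g : V → ℤ) (hg : g ∈ homs G hG w) : f ⊔ g ∈ homs G hG w := by
  rw [mem_homs] at hf hg ⊢
  refine ⟨by rw [Pi.sup_apply, hf.1, hg.1, sup_idem], ?_⟩
  intro a b hab
  obtain ⟨p⟩ := hG w a
  obtain ⟨q⟩ := hG w b
  have ha := parity hf.2 hg.2 p (by rw [hf.1, hg.1]; rfl)
  have hb := parity hf.2 hg.2 q (by rw [hf.1, hg.1]; rfl)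
  have h1 := hf.2 a b hab
  have h2 := hg.2 a b hab
  rw [Pi.sup_apply, Pi.sup_apply]
  rcases abs_eq (by norm_num : (0 : ℤ) ≤ 1) |>.mp h1 with h3 | h3 <;>
  rcases abs_eq (by norm_num : (0 : ℤ) ≤ 1) |>.mp h2 with h4 | h4 <;>
  rcases le_total (f a) (g a) with h5 | h5 <;>
  rcases le_total (f b) (g b) with h6 | h6 <;>
  simp only [sup_of_le_left h5, sup_of_le_right h5, sup_of_le_left h6, sup_of_le_right h6] <;>
  rw [abs_eq (by norm_num : (0 : ℤ) ≤ 1)] <;> omega

theorem homs_inf {G : SimpleGraph V} (hG : G.Connected) (w : V) (f : V → ℤ)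
    (hf : f ∈ homs G hG w) (g : V → ℤ) (hg : g ∈ homs G hG w) : f ⊓ g ∈ homs G hG w := by
  rw [mem_homs] at hf hg ⊢
  refine ⟨by rw [Pi.inf_apply, hf.1, hg.1, inf_idem], ?_⟩
  intro a b hab
  obtain ⟨p⟩ := hG w a
  obtain ⟨q⟩ := hG w b
  have ha := parity hf.2 hg.2 p (by rw [hf.1, hg.1]; rfl)
  have hb := parity hf.2 hg.2 q (by rw [hf.1, hg.1]; rfl)
  have h1 := hf.2 a b hab
  have h2 := hg.2 a b hab
  rw [Pi.inf_apply, Pi.inf_apply]
  rcases abs_eq (by norm_num : (0 : ℤ) ≤ 1) |>.mp h1 with h3 | h3 <;>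
  rcases abs_eq (by norm_num : (0 : ℤ) ≤ 1) |>.mp h2 with h4 | h4 <;>
  rcases le_total (f a) (g a) with h5 | h5 <;>
  rcases le_total (f b) (g b) with h6 | h6 <;>
  simp only [inf_of_le_left h5, inf_of_le_right h5, inf_of_le_left h6, inf_of_le_right h6] <;>
  rw [abs_eq (by norm_num : (0 : ℤ) ≤ 1)] <;> omega

/-! ### The decorated maximum -/

/-- `max_{a ∈ W} (f a + u a)` (zero if `W` is empty) -/
def mx (W : Finset V) (u : V → ℕ) (f : V → ℤ) : ℤ :=
  if h : W.Nonempty then W.sup' h (fun a => f a + u a) else 0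

omit [Fintype V] in
theorem mx_insert {W : Finset V} (hW : W.Nonempty) (v : V) (u : V → ℕ) (f : V → ℤ) :
    mx (insert v W) u f = max (f v + u v) (mx W u f) := by
  rw [mx, mx, dif_pos (Finset.insert_nonempty _ _), dif_pos hW, Finset.sup'_insert]

omit [Fintype V] [DecidableEq V] in
theorem mx_le_iff {W : Finset V} (hW : W.Nonempty) (u : V → ℕ) (f : V → ℤ) (c : ℤ) :
    mx W u f ≤ c ↔ ∀ a ∈ W, f a + u a ≤ c := by
  rw [mx, dif_pos hW, Finset.sup'_le_iff]

omit [Fintype V] [DecidableEq V] in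
theorem le_mx {W : Finset V} (u : V → ℕ) (f : V → ℤ) {a : V} (ha : a ∈ W) :
    f a + u a ≤ mx W u f := by
  rw [mx, dif_pos ⟨a, ha⟩]
  exact Finset.le_sup' (fun a => f a + (u a : ℤ)) ha

omit [Fintype V] in
theorem mx_update {W : Finset V} (u : V → ℕ) (f : V → ℤ) {w : V} (hw : w ∈ W) (m : ℕ)
    (hm : u w ≤ m) : mx W (Function.update u w m) f = max (mx W u f) (f w + m) := by
  apply le_antisymm
  · rw [mx_le_iff ⟨w, hw⟩]
    intro a ha
    by_cases h : a = w
    · subst h
      rw [Function.update_self]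
      exact le_max_right _ _
    · rw [Function.update_of_ne h]
      exact (le_mx u f ha).trans (le_max_left _ _)
  · apply max_le
    · rw [mx_le_iff ⟨w, hw⟩]
      intro a ha
      refine le_trans ?_ (le_mx (Function.update u w m) f ha)
      by_cases h : a = w
      · subst h
        rw [Function.update_self]
        have : (u a : ℤ) ≤ m := by exact_mod_cast hm
        linarith
      · rw [Function.update_of_ne h]
    · have := le_mx (Function.update u w m) f hw
      rw [Function.update_self] at this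
      exact this

omit [Fintype V] [DecidableEq V] in
theorem mx_congr {W : Finset V} (u u' : V → ℕ) (f : V → ℤ) (h : ∀ a ∈ W, u a = u' a) :
    mx W u f = mx W u' f := by
  rw [mx, mx]
  by_cases hW : W.Nonempty
  · rw [dif_pos hW, dif_pos hW]
    apply Finset.sup'_congr hW rfl
    intro a ha
    rw [h a ha]
  · rw [dif_neg hW, dif_neg hW]

omit [Fintype V] [DecidableEq V] in
theorem mx_mono {W : Finset V} (hW : W.Nonempty) (u : V → ℕ) : Monotone (mx W u) := by
  intro f g hfg
  rw [mx_le_iff hW]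
  intro a ha
  have := le_mx u g ha
  have := hfg a
  linarith

omit [Fintype V] [DecidableEq V] in
theorem mx_add {W : Finset V} (hW : W.Nonempty) (u : V → ℕ) (f : V → ℤ) (c : ℤ) :
    mx W u (fun v => f v + c) = mx W u f + c := by
  apply le_antisymm
  · rw [mx_le_iff hW]
    intro a ha
    have := le_mx u f ha
    linarith
  · have : mx W u f ≤ mx W u (fun v => f v + c) - c := by
      rw [mx_le_iff hW]
      intro a ha
      have := le_mx u (fun v => f v + c) ha
      linarith
    linarith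

/-- the sum of the decorated maxima over all step maps rooted at `v₀` -/
noncomputable def Lam (G : SimpleGraph V) (hG : G.Connected) (v₀ : V) (W : Finset V) (u : V → ℕ) :
    ℝ := ∑ f ∈ homs G hG v₀, (mx W u f : ℝ)

theorem sum_val {G : SimpleGraph V} (hG : G.Connected) (w a : V) :
    ∑ f ∈ homs G hG w, (f a : ℝ) = 0 := by
  have h := sum_neg hG w (fun f => (f a : ℝ))
  have h2 : ∑ f ∈ homs G hG w, ((-f a : ℤ) : ℝ) = -∑ f ∈ homs G hG w, (f a : ℝ) := by
    rw [← Finset.sum_neg_distrib]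
    apply Finset.sum_congr rfl
    intro f _
    push_cast
    rfl
  rw [h2] at h
  linarith

theorem Lam_base {G : SimpleGraph V} (hG : G.Connected) (v₀ w : V) (W : Finset V)
    (hW : W.Nonempty) (u : V → ℕ) : Lam G hG v₀ W u = Lam G hG w W u := by
  have h := sum_base hG v₀ w (fun f => (mx W u f : ℝ) - f v₀) (by
    intro f c
    rw [mx_add hW]
    push_cast
    ring)
  rw [Finset.sum_sub_distrib, Finset.sum_sub_distrib, sum_val, sum_val, sub_zero, sub_zero] at h
  exact h

/-- THE ABSORPTION STEP. -/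
theorem star {G : SimpleGraph V} (hG : G.Connected) (hb : G.Colorable 2) (v₀ : V)
    (W : Finset V) (u : V → ℕ) (v w : V) (hw : w ∈ W) (hadj : G.Adj v w) :
    Lam G hG v₀ (insert v W) u ≤
      (Lam G hG v₀ W (Function.update u w (max (u w) (u v + 1))) +
        Lam G hG v₀ W (Function.update u w (max (u w) (u v - 1)))) / 2 := by
  have hW : W.Nonempty := ⟨w, hw⟩
  rw [Lam_base hG v₀ w _ (Finset.insert_nonempty _ _), Lam_base hG v₀ w _ hW,
    Lam_base hG v₀ w _ hW]
  set s := homs G hG w with hs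
  have hspos : (0 : ℝ) < s.card := by
    exact_mod_cast Finset.card_pos.mpr (homs_nonempty hG hb w)
  set F : (V → ℤ) → ℝ := fun f => if 1 ≤ f v then 1 else 0 with hF
  set D : (V → ℤ) → ℝ := fun f =>
    (max (mx W u f) ((u v : ℤ) + 1) : ℤ) - (max (mx W u f) ((u v : ℤ) - 1) : ℤ) with hD
  have hval : ∀ f ∈ s, f w = 0 ∧ (f v = 1 ∨ f v = -1) := by
    intro f hf
    rw [hs, mem_homs] at hf
    have h1 := hf.2 v w hadj
    rw [hf.1, sub_zero] at h1
    exact ⟨hf.1, abs_eq (by norm_num : (0 : ℤ) ≤ 1) |>.mp h1⟩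
  -- decomposition
  have hdec : ∀ f ∈ s, (mx (insert v W) u f : ℝ) =
      ((max (mx W u f) ((u v : ℤ) - 1) : ℤ) : ℝ) + F f * D f := by
    intro f hf
    rw [mx_insert hW]
    rcases (hval f hf).2 with h | h
    · simp only [hF, hD, h]
      norm_num
      rw [max_comm, add_comm (1 : ℝ)]
    · simp only [hF, hD, h]
      norm_num
      rw [max_comm]
      congr 1
      ring
  -- fkg
  have hDle : ∀ f, D f ≤ 2 := by
    intro f
    simp only [hD]
    have : max (mx W u f) ((u v : ℤ) + 1) - max (mx W u f) ((u v : ℤ) - 1) ≤ 2 := by omega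
    exact_mod_cast this
  have hDanti : ∀ f g : V → ℤ, f ≤ g → D g ≤ D f := by
    intro f g hfg
    simp only [hD]
    have h1 := mx_mono hW u hfg
    have : max (mx W u g) ((u v : ℤ) + 1) - max (mx W u g) ((u v : ℤ) - 1) ≤
        max (mx W u f) ((u v : ℤ) + 1) - max (mx W u f) ((u v : ℤ) - 1) := by omega
    exact_mod_cast this
  have hfkg := fkg_finset s (homs_sup hG w) (homs_inf hG w) F (fun f => 2 - D f)
    (by intro f; simp only [hF]; split_ifs <;> norm_num)
    (by intro f; have := hDle f; linarith)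
    (by
      intro f g hfg
      simp only [hF]
      have := hfg v
      by_cases h1 : 1 ≤ f v
      · rw [if_pos h1, if_pos (h1.trans this)]
      · rw [if_neg h1]
        split_ifs <;> norm_num)
    (by
      intro f g hfg
      have := hDanti f g hfg
      simp only
      linarith)
  -- symmetry
  have hhalf : ∑ f ∈ s, F f = s.card / 2 := by
    have h1 := sum_neg hG w F
    have h2 : ∑ f ∈ s, (F (fun a => - f a) + F f) = s.card := by
      rw [Finset.sum_congr rfl (g := fun _ => (1 : ℝ))]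
      · simp
      · intro f hf
        simp only [hF]
        rcases (hval f hf).2 with h | h
        · rw [if_neg (by omega), if_pos (by omega)]; norm_num
        · rw [if_pos (by omega), if_neg (by omega)]; norm_num
    rw [Finset.sum_add_distrib, h1] at h2
    linarith
  have hkey : ∑ f ∈ s, F f * D f ≤ (∑ f ∈ s, D f) / 2 := by
    have e1 : ∑ f ∈ s, (2 - D f) = 2 * s.card - ∑ f ∈ s, D f := by
      rw [Finset.sum_sub_distrib, Finset.sum_const, nsmul_eq_mul]
      ring
    have e2 : ∑ f ∈ s, F f * (2 - D f) = s.card - ∑ f ∈ s, F f * D f := by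
      have : ∀ f ∈ s, F f * (2 - D f) = 2 * F f - F f * D f := by intro f _; ring
      rw [Finset.sum_congr rfl this, Finset.sum_sub_distrib, ← Finset.mul_sum, hhalf]
      ring
    rw [e1, e2, hhalf] at hfkg
    have h3 : (s.card : ℝ) * (∑ f ∈ s, F f * D f) ≤ s.card * ((∑ f ∈ s, D f) / 2) := by
      nlinarith
    exact le_of_mul_le_mul_left h3 hspos
  -- the two updates
  have hup : ∀ f ∈ s, (mx W (Function.update u w (max (u w) (u v + 1))) f) =
      max (mx W u f) ((u v : ℤ) + 1) := by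
    intro f hf
    rw [mx_update u f hw _ (le_max_left _ _), (hval f hf).1]
    have h1 := le_mx u f hw
    rw [(hval f hf).1] at h1
    push_cast
    omega
  have hdown : ∀ f ∈ s, (mx W (Function.update u w (max (u w) (u v - 1))) f) =
      max (mx W u f) ((u v : ℤ) - 1) := by
    intro f hf
    rw [mx_update u f hw _ (le_max_left _ _), (hval f hf).1]
    have h1 := le_mx u f hw
    rw [(hval f hf).1] at h1
    omega
  have hfin : Lam G hG w W (Function.update u w (max (u w) (u v + 1))) +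
      Lam G hG w W (Function.update u w (max (u w) (u v - 1))) =
      2 * (∑ f ∈ s, ((max (mx W u f) ((u v : ℤ) - 1) : ℤ) : ℝ)) + ∑ f ∈ s, D f := by
    unfold Lam
    rw [← hs, Finset.mul_sum, ← Finset.sum_add_distrib, ← Finset.sum_add_distrib]
    apply Finset.sum_congr rfl
    intro f hf
    rw [hup f hf, hdown f hf]
    simp only [hD]
    ring
  rw [hfin]
  unfold Lam
  rw [← hs, Finset.sum_congr rfl hdec, Finset.sum_add_distrib]
  linarith

end Pool.Agent.BHM85
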